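import Pool.Agent.Y798.FC.Stm5

/-! Mean values and logarithms of Euler products at `1 + ε` (helper125, for helper798, project FC). -/

set_option autoImplicit false

namespace Pool.Agent.Y125.FC3.Log

open Filter Topology MeasureTheory UnitAddTorus NumberField IsDedekindDomain
  Pool.Agent.W540.BE Pool.Agent.Y798.FC
open Pool.Agent.Y139.ID (Good good_ev wt wt_nonneg hasSum_wt tot tot_pos summable_w)
open Pool.Agent.H341R2 (lam lam_bounded lam_tendsto)
open Pool.Agent.Y139.IM (mean mean_one)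

theorem log_tendsto : Tendsto (fun ε : ℝ => Real.log (1 / ε)) (𝓝[>] 0) atTop := by
  have h2 := tendsto_neg_atBot_atTop.comp Real.tendsto_log_nhdsGT_zero
  refine h2.congr fun ε => ?_
  simp only [Function.comp]
  rw [one_div, Real.log_inv]

theorem lam_L : Tendsto (fun ε : ℝ => lam ε / Real.log (1 / ε)) (𝓝[>] 0) (𝓝 1) := by
  obtain ⟨C, hC⟩ := lam_bounded
  have h1 : Tendsto (fun ε : ℝ => C / Real.log (1 / ε)) (𝓝[>] 0) (𝓝 0) :=
    log_tendsto.const_div_atTop C
  have h2 : Tendsto (fun ε : ℝ => lam ε / Real.log (1 / ε) - 1) (𝓝[>] 0) (𝓝 0) := by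
    refine squeeze_zero_norm' ?_ h1
    filter_upwards [hC, log_tendsto.eventually_gt_atTop 0] with ε hε hL
    have e : lam ε / Real.log (1 / ε) - 1 = (lam ε + Real.log ε) / Real.log (1 / ε) := by
      have e1 : Real.log ε = - Real.log (1 / ε) := by rw [one_div, Real.log_inv, neg_neg]
      rw [e1]
      field_simp
      ring
    rw [e, norm_div, Real.norm_eq_abs, Real.norm_eq_abs, abs_of_pos hL]
    exact div_le_div_of_nonneg_right hε hL.le
  have h3 := h2.add_const 1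
  rw [zero_add] at h3
  exact h3.congr fun ε => by ring

section

variable {K : Type} [Field K] [NumberField K]

theorem tot_L : Tendsto (fun ε : ℝ => tot K ε / Real.log (1 / ε)) (𝓝[>] 0) (𝓝 1) := by
  have h := (mean_one (K := K)).mul lam_L
  rw [one_mul] at h
  refine h.congr' ?_
  filter_upwards [lam_tendsto.eventually_gt_atTop 0] with ε hε
  have e : mean (K := K) (fun _ => 1) ε = tot K ε / lam ε := by
    unfold mean EP tot
    simp only [one_mul]
    rfl
  rw [e, div_mul_div_comm, mul_comm (lam ε), mul_div_mul_right _ _ hε.ne']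

/-- `q_v ^ (-(1+ε))` -/
noncomputable def Q (ε : ℝ) (v : HeightOneSpectrum (𝓞 K)) : ℝ :=
  (Ideal.absNorm v.asIdeal : ℝ) ^ (-(1 + ε))

theorem two_le (v : HeightOneSpectrum (𝓞 K)) : (2 : ℝ) ≤ (Ideal.absNorm v.asIdeal : ℝ) := by
  have h := two_le_nm v
  have h2 : (2 : ℝ) ≤ ((nm K v : ℕ) : ℝ) := by exact_mod_cast h
  exact h2

theorem Q_nonneg (ε : ℝ) (v : HeightOneSpectrum (𝓞 K)) : 0 ≤ Q ε v :=
  Real.rpow_nonneg (Nat.cast_nonneg _) _

theorem Q_le {ε : ℝ} (hε : 0 < ε) (v : HeightOneSpectrum (𝓞 K)) :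
    Q ε v ≤ (Ideal.absNorm v.asIdeal : ℝ) ^ (-(1 : ℝ)) := by
  unfold Q
  apply Real.rpow_le_rpow_of_exponent_le
  · linarith [two_le v]
  · linarith

theorem inv_le (v : HeightOneSpectrum (𝓞 K)) :
    (Ideal.absNorm v.asIdeal : ℝ) ^ (-(1 : ℝ)) ≤ 1 / 2 := by
  rw [Real.rpow_neg_one, one_div]
  exact inv_anti₀ (by norm_num) (two_le v)

theorem Q_cast (ε : ℝ) (v : HeightOneSpectrum (𝓞 K)) :
    (Ideal.absNorm v.asIdeal : ℂ) ^ (-(1 + (ε : ℂ))) = ((Q ε v : ℝ) : ℂ) := by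
  unfold Q
  rw [Complex.ofReal_cpow (Nat.cast_nonneg _)]
  push_cast
  rfl

/-- `q_v ^ (-2)` -/
noncomputable def R (v : HeightOneSpectrum (𝓞 K)) : ℝ := (Ideal.absNorm v.asIdeal : ℝ) ^ (-(2 : ℝ))

theorem summable_R : Summable (R (K := K)) := (normSys (F := K)).summable _ (by norm_num)

theorem Q_sq {ε : ℝ} (hε : 0 < ε) (v : HeightOneSpectrum (𝓞 K)) : Q ε v ^ 2 ≤ R v := by
  have h1 := Q_le hε v
  have h2 : Q ε v ^ 2 ≤ ((Ideal.absNorm v.asIdeal : ℝ) ^ (-(1 : ℝ))) ^ 2 :=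
    pow_le_pow_left₀ (Q_nonneg ε v) h1 2
  refine h2.trans (le_of_eq ?_)
  unfold R
  rw [← Real.rpow_natCast, ← Real.rpow_mul (Nat.cast_nonneg _)]
  norm_num

theorem log_bd {z : ℂ} {q : ℝ} (hz : ‖z‖ = q) (hq : q ≤ 1 / 2) :
    ‖-Complex.log (1 - z) - z‖ ≤ q ^ 2 := by
  have h0 : 0 ≤ q := by rw [← hz]; exact norm_nonneg z
  have h1 := Complex.norm_log_one_add_sub_self_le (z := -z) (by rw [norm_neg, hz]; linarith)
  rw [norm_neg, hz, ← sub_eq_add_neg] at h1
  have e : -Complex.log (1 - z) - z = -(Complex.log (1 - z) - -z) := by ring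
  rw [e, norm_neg]
  refine h1.trans ?_
  have h2 : (1 - q)⁻¹ ≤ 2 := by
    rw [inv_le_comm₀ (by linarith) (by norm_num)]
    linarith
  have h3 : q ^ 2 * (1 - q)⁻¹ ≤ q ^ 2 * 2 := mul_le_mul_of_nonneg_left h2 (sq_nonneg q)
  linarith

end

theorem t : StmLog := by
  intro K _ _ r W hW θ μ
  set B : ℝ := ((orbF hW μ).card : ℝ) with hB
  have hB0 : 0 ≤ B := Nat.cast_nonneg _
  set tt : HeightOneSpectrum (𝓞 K) → ℂ := fun v => msum W μ (θ v) with htt
  have ht : ∀ v, ‖tt v‖ ≤ B := by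
    intro v
    rw [htt]
    simp only
    rw [msum_eq hW]
    refine (norm_sum_le _ _).trans (le_of_eq ?_)
    rw [Finset.sum_congr rfl fun ν _ => norm_mF ν (θ v), Finset.sum_const, nsmul_eq_mul, mul_one]
  -- the bound of the difference
  set C : ℝ := ∑' v : HeightOneSpectrum (𝓞 K), B * R v with hC
  have hsC : Summable fun v : HeightOneSpectrum (𝓞 K) => B * R v := summable_R.mul_left B
  have key : ∀ ε : ℝ, 0 < ε →
      ‖logLM W θ μ (1 + ε) - ∑' v, ((Q ε v : ℝ) : ℂ) * tt v‖ ≤ C := by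
    intro ε hε
    have hd : ∀ v : HeightOneSpectrum (𝓞 K),
        ‖(∑ᶠ ν ∈ orbS W μ, -Complex.log (1 - mFourier ν (θ v) *
          (Ideal.absNorm v.asIdeal : ℂ) ^ (-(1 + (ε : ℂ))))) - ((Q ε v : ℝ) : ℂ) * tt v‖ ≤
          B * R v := by
      intro v
      have e1 : (∑ᶠ ν ∈ orbS W μ, -Complex.log (1 - mFourier ν (θ v) *
          (Ideal.absNorm v.asIdeal : ℂ) ^ (-(1 + (ε : ℂ))))) =
          ∑ ν ∈ orbF hW μ, -Complex.log (1 - mFourier ν (θ v) * ((Q ε v : ℝ) : ℂ)) := by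
        rw [Q_cast]
        exact finsum_mem_eq_finite_toFinset_sum _ _
      rw [e1, htt]
      simp only
      rw [msum_eq hW, Finset.mul_sum, ← Finset.sum_sub_distrib]
      refine (norm_sum_le _ _).trans ?_
      have h1 : ∀ ν ∈ orbF hW μ, ‖-Complex.log (1 - mFourier ν (θ v) * ((Q ε v : ℝ) : ℂ)) -
          ((Q ε v : ℝ) : ℂ) * mFourier ν (θ v)‖ ≤ R v := by
        intro ν _
        rw [mul_comm ((Q ε v : ℝ) : ℂ)]
        refine (log_bd (q := Q ε v) ?_ ((Q_le hε v).trans (inv_le v))).trans (Q_sq hε v)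
        rw [norm_mul, norm_mF, one_mul, Complex.norm_real, Real.norm_eq_abs,
          abs_of_nonneg (Q_nonneg ε v)]
      refine (Finset.sum_le_sum h1).trans (le_of_eq ?_)
      rw [Finset.sum_const, nsmul_eq_mul]
    have hsQ : Summable fun v => ((Q ε v : ℝ) : ℂ) * tt v := by
      refine Summable.of_norm_bounded ((summable_w (K := K) hε).mul_left B) fun v => ?_
      rw [norm_mul, Complex.norm_real, Real.norm_eq_abs, abs_of_nonneg (Q_nonneg ε v), mul_comm]
      exact mul_le_mul_of_nonneg_right (ht v) (Q_nonneg ε v)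
    have hsd := Summable.of_norm_bounded hsC hd
    have hsg := hsd.add hsQ
    simp only [sub_add_cancel] at hsg
    unfold logLM
    rw [← hsg.tsum_sub hsQ]
    exact tsum_of_norm_bounded hsC.hasSum hd
  -- the limit
  have hb : Tendsto (fun ε : ℝ => B * |1 - tot K ε / Real.log (1 / ε)| + C / Real.log (1 / ε))
      (𝓝[>] 0) (𝓝 0) := by
    have h1 : Tendsto (fun ε : ℝ => B * |1 - tot K ε / Real.log (1 / ε)|) (𝓝[>] 0)
        (𝓝 (B * |1 - 1|)) := ((tendsto_const_nhds.sub (tot_L (K := K))).abs).const_mul B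
    rw [sub_self, abs_zero, mul_zero] at h1
    have h2 : Tendsto (fun ε : ℝ => C / Real.log (1 / ε)) (𝓝[>] 0) (𝓝 0) :=
      log_tendsto.const_div_atTop C
    have h3 := h1.add h2
    rw [add_zero] at h3
    exact h3
  refine squeeze_zero_norm' ?_ hb
  filter_upwards [good_ev (K := K), log_tendsto.eventually_gt_atTop 0] with ε hε hL
  have hLc : ((Real.log (1 / ε) : ℝ) : ℂ) ≠ 0 := by
    exact_mod_cast hL.ne'
  have htotc : ((tot K ε : ℝ) : ℂ) ≠ 0 := by
    exact_mod_cast (tot_pos hε).ne'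
  have e1 : (∑' v, ((Q ε v : ℝ) : ℂ) * tt v) = cE tt ε * ((tot K ε : ℝ) : ℂ) := by
    unfold cE
    rw [← tsum_mul_right]
    refine tsum_congr fun v => ?_
    have e : (wt ε v : ℝ) = Q ε v / tot K ε := rfl
    rw [e]
    push_cast
    field_simp
  have e2 : cE tt ε - logLM W θ μ (1 + ε) / ((Real.log (1 / ε) : ℝ) : ℂ) =
      cE tt ε * (1 - ((tot K ε / Real.log (1 / ε) : ℝ) : ℂ)) -
        (logLM W θ μ (1 + ε) - ∑' v, ((Q ε v : ℝ) : ℂ) * tt v) /
          ((Real.log (1 / ε) : ℝ) : ℂ) := by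
    rw [e1]
    push_cast
    field_simp
    ring
  rw [e2]
  refine (norm_sub_le _ _).trans (add_le_add ?_ ?_)
  · rw [norm_mul]
    refine mul_le_mul (norm_cE_le hε ht) (le_of_eq ?_) (norm_nonneg _) hB0
    rw [← Complex.ofReal_one, ← Complex.ofReal_sub, Complex.norm_real, Real.norm_eq_abs]
  · rw [norm_div, Complex.norm_real, Real.norm_eq_abs, abs_of_pos hL]
    exact div_le_div_of_nonneg_right (key ε hε.1) hL.le

end Pool.Agent.Y125.FC3.Log
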